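import Pool.Agent.H51.EM.Targets
import Pool.Agent.H90.EI.PARX

/-! Board em_modules, row PAR. -/

set_option autoImplicit false

open Polynomial Finset

namespace Pool.Agent.H60.EM.PAR

open Pool.Agent.H51.EM
open Pool.Agent.H51.EI (Disc toC ev plen RP KK KX)
open Pool.Agent.H90.EI.PARX (ev_mul trans lowb mono_bound)

/-- two elements of the field with a common denominator -/
private theorem pairs {O : Subring ℂ} {X0 : ℂ} (hRAT : Pool.Agent.H51.EI.T_RAT)
    (x : Fin 2 → ℂ) (hx : ∀ i, x i ∈ KX O X0) :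
    ∃ (P : Fin 2 → (↥O)[X]) (B : (↥O)[X]), ev B X0 ≠ 0 ∧ ∀ i, ev (P i) X0 = x i * ev B X0 := by
  obtain ⟨P0, Q0, h0, e0⟩ := hRAT O X0 (x 0) (hx 0)
  obtain ⟨P1, Q1, h1, e1⟩ := hRAT O X0 (x 1) (hx 1)
  refine ⟨![P0 * Q1, P1 * Q0], Q0 * Q1, ?_, ?_⟩
  · rw [ev_mul]; exact mul_ne_zero h0 h1
  · intro i
    fin_cases i
    · show ev (P0 * Q1) X0 = x 0 * ev (Q0 * Q1) X0
      rw [ev_mul, ev_mul, e0]
      field_simp
    · show ev (P1 * Q0) X0 = x 1 * ev (Q0 * Q1) X0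
      rw [ev_mul, ev_mul, e1]
      field_simp

theorem pf_PAR (hMEAS : Pool.Agent.H51.EI.T_MEAS) (hRAT : Pool.Agent.H51.EI.T_RAT)
    (hFRC : Pool.Agent.H51.EI.T_FRC) : T_PAR := by
  intro O t x y hD hR ht ht0 hx hy hxn hyn
  obtain ⟨a, b, hb, htab⟩ := hFRC O t ht
  have ha : a ≠ 0 := by
    rintro rfl
    apply ht0
    rw [htab]
    simp
  have hlow : ∀ P Q : (↥O)[X],
      (∀ m n : ℤ, (m ≠ 0 ∨ n ≠ 0) → (m : ℂ) * ev P (Complex.exp t) +
        n * ev Q (Complex.exp t) ≠ 0) →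
      ∃ C : ℝ, 0 ≤ C ∧ ∀ m n : ℤ, (m ≠ 0 ∨ n ≠ 0) →
      Real.exp (-(C * (|(m : ℝ)| + |(n : ℝ)|) * Real.log (|(m : ℝ)| + |(n : ℝ)| + 1))) ≤
        ‖(m : ℂ) * ev P (Complex.exp t) + n * ev Q (Complex.exp t)‖ := by
    intro P Q h
    rw [htab] at h ⊢
    exact lowb hMEAS hD hR ha hb P Q h
  obtain ⟨P, B, hB, hP⟩ := pairs hRAT x hx
  obtain ⟨R, A, hA, hR'⟩ := pairs hRAT y hy
  have hxne : ∀ m n : ℤ, (m ≠ 0 ∨ n ≠ 0) → (m : ℂ) * ev (P 0) (Complex.exp t) +
        n * ev (P 1) (Complex.exp t) ≠ 0 := by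
    intro m n hmn h0
    rw [hP 0, hP 1] at h0
    have h2 : ev B (Complex.exp t) * ((m : ℂ) * x 0 + n * x 1) = 0 := by
      linear_combination h0
    rcases mul_eq_zero.mp h2 with h | h
    · exact hB h
    · exact hxn m n hmn h
  have hyne : ∀ m n : ℤ, (m ≠ 0 ∨ n ≠ 0) → (m : ℂ) * ev (R 0) (Complex.exp t) +
        n * ev (R 1) (Complex.exp t) ≠ 0 := by
    intro m n hmn h0
    rw [hR' 0, hR' 1] at h0
    have h2 : ev A (Complex.exp t) * ((m : ℂ) * y 0 + n * y 1) = 0 := by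
      linear_combination h0
    rcases mul_eq_zero.mp h2 with h | h
    · exact hA h
    · exact hyn m n hmn h
  obtain ⟨Cx, hCx, hbx⟩ := hlow _ _ hxne
  obtain ⟨Cy, hCy, hby⟩ := hlow _ _ hyne
  set r : ℕ := (P 0).natDegree + (P 1).natDegree + (R 0).natDegree + (R 1).natDegree +
    A.natDegree + B.natDegree + 1 with hr
  have hr4 : r ≤ r ^ 4 := Nat.le_self_pow (by norm_num) r
  refine ⟨{
    r := r
    x := P
    y := R
    A := A
    B := B
    C := max Cx Cy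
    hr := by omega
    hC := le_max_of_le_left hCx
    hdx := by
      intro i
      fin_cases i
      · show (P 0).natDegree ≤ r ^ 4
        omega
      · show (P 1).natDegree ≤ r ^ 4
        omega
    hdy := by
      intro i
      fin_cases i
      · show (R 0).natDegree ≤ r ^ 4
        omega
      · show (R 1).natDegree ≤ r ^ 4
        omega
    hdA := by omega
    hdB := by omega
    hA := hA
    hB := hB
    hX := Complex.exp_ne_zero _
    hsx := fun m n hmn => (mono_bound (le_max_left Cx Cy) m n).trans (hbx m n hmn)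
    hsy := fun m n hmn => (mono_bound (le_max_right Cx Cy) m n).trans (hby m n hmn) }, ?_⟩
  intro i j
  show ev (P i) (Complex.exp t) * ev (R j) (Complex.exp t) /
    (ev A (Complex.exp t) * ev B (Complex.exp t)) = x i * y j
  rw [hP i, hR' j]
  field_simp

end Pool.Agent.H60.EM.PAR
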